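import Mathlib
import Pool.Agent.Helper64.Cal.Fin

set_option autoImplicit false

namespace Pool.Agent.Results.MP_d4c2ba_an.CalkinAlgebra

/-- The compact operators on `X`, as a subspace of the bounded operators. -/
def compacts (X : Type) [NormedAddCommGroup X] [NormedSpace ℂ X] : Submodule ℂ (X →L[ℂ] X) where
  carrier := {T | IsCompactOperator T}
  add_mem' hS hT := hS.add hT
  zero_mem' := isCompactOperator_zero
  smul_mem' c _ hT := hT.smul c

/-- The norm of the class of the operator `S` in the Calkin algebra `L(X) / K(X)`, that is, the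
quotient norm. -/
noncomputable def calkinNorm {X : Type} [NormedAddCommGroup X] [NormedSpace ℂ X] (S : X →L[ℂ] X) :
    ℝ := ‖(compacts X).mkQ S‖

/-- The norm `|λ| + ‖A‖` of the element `(λ, A)` of the unitization of the compact operators. -/
noncomputable def unitizationNorm {H : Type} [NormedAddCommGroup H] [NormedSpace ℂ H]
    (p : ℂ × (H →L[ℂ] H)) : ℝ := ‖p.1‖ + ‖p.2‖

/-- The product `(λ, A) (μ, B) = (λ μ, A B + λ B + μ A)` of the unitization of the compact
operators. -/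
noncomputable def unitizationMul {H : Type} [NormedAddCommGroup H] [NormedSpace ℂ H]
    (p q : ℂ × (H →L[ℂ] H)) : ℂ × (H →L[ℂ] H) := (p.1 * q.1, p.2 * q.2 + p.1 • q.2 + q.1 • p.2)

/-- The linear map `Ψ` on the bounded operators of `X` induces an isomorphism of Banach algebras
`[S] ↦ Ψ S` from the Calkin algebra of `X` onto the unitization of the compact operators on `H`:
its kernel is the space of compact operators on `X`, its range consists of all pairs `(λ, A)` with
`A` compact, it is multiplicative, and it is bounded with bounded inverse for the quotient norm and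
the norm `|λ| + ‖A‖`. -/
structure InducesIsomorphism {X H : Type} [NormedAddCommGroup X] [NormedSpace ℂ X]
    [NormedAddCommGroup H] [NormedSpace ℂ H] (Ψ : (X →L[ℂ] X) →ₗ[ℂ] ℂ × (H →L[ℂ] H)) : Prop where
  ker : ∀ S, Ψ S = 0 ↔ IsCompactOperator S
  range : ∀ p, p ∈ Set.range Ψ ↔ IsCompactOperator p.2
  mul : ∀ S T, Ψ (S * T) = unitizationMul (Ψ S) (Ψ T)
  bound : ∃ C : ℝ, ∀ S, unitizationNorm (Ψ S) ≤ C * calkinNorm S
  bound_inv : ∃ C : ℝ, ∀ S, calkinNorm S ≤ C * unitizationNorm (Ψ S)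

/-- The Calkin algebra of `X` is isomorphic as a Banach algebra to the unitization of the algebra of
compact operators on `H`. -/
def CalkinIsoUnitizedCompacts (X H : Type) [NormedAddCommGroup X] [NormedSpace ℂ X]
    [NormedAddCommGroup H] [NormedSpace ℂ H] : Prop :=
  ∃ Ψ : (X →L[ℂ] X) →ₗ[ℂ] ℂ × (H →L[ℂ] H), InducesIsomorphism Ψ

/-- Two injective bounded operators with the same range have isomorphic domains. -/
private theorem iso_of_range {Q U W : Type} [NormedAddCommGroup Q] [NormedSpace ℂ Q]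
    [CompleteSpace Q] [NormedAddCommGroup U] [NormedSpace ℂ U] [CompleteSpace U]
    [NormedAddCommGroup W] [NormedSpace ℂ W] (f : Q →ₗ[ℂ] W) (g : U →ₗ[ℂ] W)
    (hf : Continuous f) (hg : Continuous g) (hfi : Function.Injective f)
    (hgi : Function.Injective g) (hr : ∀ w, w ∈ Set.range f ↔ w ∈ Set.range g) :
    ∃ e : Q ≃ₗ[ℂ] U, (∀ q, g (e q) = f q) ∧ ∃ C : ℝ, ∀ q, ‖e q‖ ≤ C * ‖q‖ ∧ ‖q‖ ≤ C * ‖e q‖ := by
  have hex : ∀ q : Q, ∃ u, g u = f q := fun q => (hr (f q)).1 ⟨q, rfl⟩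
  choose h hh using hex
  let e : Q →ₗ[ℂ] U :=
    { toFun := h
      map_add' := fun x y => by
        apply hgi
        rw [hh, map_add, map_add, hh, hh]
      map_smul' := fun c x => by
        apply hgi
        rw [hh, RingHom.id_apply, map_smul, map_smul, hh] }
  have he : ∀ q, g (e q) = f q := hh
  have heinj : Function.Injective e := by
    intro x y hxy
    apply hfi
    rw [← he, ← he, hxy]
  have hesurj : Function.Surjective e := by
    intro u
    obtain ⟨q, hq⟩ := (hr (g u)).2 ⟨u, rfl⟩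
    refine ⟨q, hgi ?_⟩
    rw [he, hq]
  have hecont : Continuous e := by
    refine LinearMap.continuous_of_seq_closed_graph e ?_
    intro u x y hux huy
    apply hgi
    rw [he]
    have h1 : Filter.Tendsto (fun n => f (u n)) Filter.atTop (nhds (f x)) :=
      (hf.tendsto x).comp hux
    have h2 : Filter.Tendsto (fun n => f (u n)) Filter.atTop (nhds (g y)) := by
      have h3 := (hg.tendsto y).comp huy
      exact h3.congr fun n => he (u n)
    exact tendsto_nhds_unique h2 h1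
  let E : Q ≃L[ℂ] U :=
    (LinearEquiv.ofBijective e ⟨heinj, hesurj⟩).toContinuousLinearEquivOfContinuous hecont
  refine ⟨E.toLinearEquiv, he, max ‖(E : Q →L[ℂ] U)‖ ‖(E.symm : U →L[ℂ] Q)‖, fun q => ⟨?_, ?_⟩⟩
  · refine ((E : Q →L[ℂ] U).le_opNorm q).trans ?_
    exact mul_le_mul_of_nonneg_right (le_max_left _ _) (norm_nonneg q)
  · have h1 := (E.symm : U →L[ℂ] Q).le_opNorm (E q)
    rw [ContinuousLinearEquiv.coe_coe, E.symm_apply_apply] at h1
    refine h1.trans ?_
    exact mul_le_mul_of_nonneg_right (le_max_right _ _) (norm_nonneg (E q))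

section

variable {H : Type} [NormedAddCommGroup H] [NormedSpace ℂ H]

/-- The operator `λ 1 + A`, on pairs. -/
private noncomputable def psi2 : (ℂ × compacts H) →ₗ[ℂ] (H →L[ℂ] H) where
  toFun p := p.1 • 1 + (p.2 : H →L[ℂ] H)
  map_add' u v := by
    rw [Prod.fst_add, Prod.snd_add, add_smul, Submodule.coe_add]
    abel
  map_smul' c u := by
    rw [Prod.smul_fst, Prod.smul_snd, smul_add, Submodule.coe_smul, RingHom.id_apply, smul_assoc]

private theorem psi2_apply (p : ℂ × compacts H) :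
    psi2 p = p.1 • (1 : H →L[ℂ] H) + (p.2 : H →L[ℂ] H) := rfl

private theorem psi2_cont : Continuous (psi2 (H := H)) := by
  change Continuous fun p : ℂ × compacts H => p.1 • (1 : H →L[ℂ] H) + (p.2 : H →L[ℂ] H)
  exact (continuous_fst.smul continuous_const).add (continuous_subtype_val.comp continuous_snd)

private theorem uniq (hH : ∀ c : ℂ, IsCompactOperator (c • (1 : H →L[ℂ] H)) → c = 0)
    {c d : ℂ} {K L : H →L[ℂ] H} (hK : IsCompactOperator K) (hL : IsCompactOperator L)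
    (h : c • (1 : H →L[ℂ] H) + K = d • (1 : H →L[ℂ] H) + L) : c = d ∧ K = L := by
  have h0 : (c - d) • (1 : H →L[ℂ] H) = L - K := by
    rw [sub_smul, sub_eq_sub_iff_add_eq_add, h]
    abel
  have h1 : c - d = 0 := by
    apply hH
    rw [h0]
    exact IsCompactOperator.sub hL hK
  rw [h1, zero_smul] at h0
  exact ⟨sub_eq_zero.1 h1, (sub_eq_zero.1 h0.symm).symm⟩

private theorem complete_compacts [CompleteSpace H] : CompleteSpace (compacts H) := by
  have h : IsClosed ((compacts H : Set (H →L[ℂ] H))) := isClosed_setOfPred_isCompactOperator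
  exact h.completeSpace_coe

/-- From a homomorphism onto scalars plus compacts to the isomorphism. -/
private theorem isomorphic_of_hom [CompleteSpace H] {X : Type} [NormedAddCommGroup X]
    [NormedSpace ℂ X] [CompleteSpace X]
    (hH : ∀ c : ℂ, IsCompactOperator (c • (1 : H →L[ℂ] H)) → c = 0)
    (φ : (X →L[ℂ] X) →ₗ[ℂ] (H →L[ℂ] H)) (hφm : ∀ S T, φ (S * T) = φ S * φ T)
    (hφc : Continuous φ)
    (hφr : ∀ T : H →L[ℂ] H, (∃ S : X →L[ℂ] X, φ S = T) ↔
      ∃ c : ℂ, ∃ K : H →L[ℂ] H, IsCompactOperator K ∧ T = c • (1 : H →L[ℂ] H) + K)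
    (hφk : ∀ S : X →L[ℂ] X, φ S = 0 ↔ IsCompactOperator S) :
    CalkinIsoUnitizedCompacts X H := by
  have : IsClosed (compacts X : Set (X →L[ℂ] X)) := isClosed_setOfPred_isCompactOperator
  have : CompleteSpace (compacts H) := complete_compacts
  -- the induced map on the quotient
  have hker : compacts X ≤ φ.ker := by
    intro S hS
    exact (hφk S).2 hS
  let φ' : ((X →L[ℂ] X) ⧸ compacts X) →ₗ[ℂ] (H →L[ℂ] H) := (compacts X).liftQ φ hker
  have hφ' : ∀ S, φ' ((compacts X).mkQ S) = φ S := fun S => rfl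
  have hφ'inj : Function.Injective φ' := by
    rw [injective_iff_map_eq_zero]
    intro q hq
    obtain ⟨S, rfl⟩ := (compacts X).mkQ_surjective q
    rw [hφ'] at hq
    rw [Submodule.mkQ_apply, Submodule.Quotient.mk_eq_zero]
    exact (hφk S).1 hq
  have hφ'cont : Continuous φ' :=
    (Submodule.isOpenQuotientMap_mkQ (compacts X)).isQuotientMap.continuous_iff.2 hφc
  -- the ranges agree
  have hrange : ∀ T : H →L[ℂ] H, T ∈ Set.range φ' ↔ T ∈ Set.range psi2 := by
    intro T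
    constructor
    · rintro ⟨q, rfl⟩
      obtain ⟨S, rfl⟩ := (compacts X).mkQ_surjective q
      obtain ⟨c, K, hK, hT⟩ := (hφr (φ S)).1 ⟨S, rfl⟩
      refine ⟨(c, ⟨K, hK⟩), ?_⟩
      rw [hφ', hT]
      rfl
    · rintro ⟨p, rfl⟩
      obtain ⟨S, hS⟩ := (hφr (psi2 p)).2 ⟨p.1, p.2, p.2.2, rfl⟩
      exact ⟨(compacts X).mkQ S, hS⟩
  have hinj2 : Function.Injective (psi2 (H := H)) := by
    intro p q h
    have h1 := uniq hH p.2.2 q.2.2 h
    exact Prod.ext h1.1 (Subtype.ext h1.2)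
  obtain ⟨e, he, C, hC⟩ := iso_of_range (Q := (X →L[ℂ] X) ⧸ compacts X)
    (U := ℂ × compacts H) (W := H →L[ℂ] H) φ' psi2 hφ'cont psi2_cont hφ'inj hinj2 hrange
  let Ψ : (X →L[ℂ] X) →ₗ[ℂ] ℂ × (H →L[ℂ] H) :=
    (LinearMap.prodMap LinearMap.id (compacts H).subtype) ∘ₗ e.toLinearMap ∘ₗ (compacts X).mkQ
  have hΨ : ∀ S, Ψ S = ((e ((compacts X).mkQ S)).1, ((e ((compacts X).mkQ S)).2 : H →L[ℂ] H)) :=
    fun S => rfl
  have hΨφ : ∀ S, (Ψ S).1 • (1 : H →L[ℂ] H) + (Ψ S).2 = φ S := by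
    intro S
    have h1 := he ((compacts X).mkQ S)
    rw [psi2_apply, hφ'] at h1
    exact h1
  have hΨc : ∀ S, IsCompactOperator (Ψ S).2 := fun S => (e ((compacts X).mkQ S)).2.2
  refine ⟨Ψ, ⟨?_, ?_, ?_, ⟨2 * |C|, ?_⟩, ⟨|C|, ?_⟩⟩⟩
  · intro S
    rw [← hφk, ← hΨφ]
    constructor
    · intro h
      rw [h]
      simp
    · intro h
      have h0 : (Ψ S).1 • (1 : H →L[ℂ] H) + (Ψ S).2 = (0 : ℂ) • (1 : H →L[ℂ] H) + 0 := by
        rw [h]
        simp
      have h1 := uniq hH (hΨc S) isCompactOperator_zero h0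
      exact Prod.ext h1.1 h1.2
  · intro p
    constructor
    · rintro ⟨S, rfl⟩
      exact hΨc S
    · intro hp
      obtain ⟨S, hS⟩ := (hφr (p.1 • (1 : H →L[ℂ] H) + p.2)).2 ⟨p.1, p.2, hp, rfl⟩
      refine ⟨S, ?_⟩
      rw [← hΨφ] at hS
      have h1 := uniq hH (hΨc S) hp hS
      exact Prod.ext h1.1 h1.2
  · intro S T
    have h1 : (Ψ (S * T)).1 • (1 : H →L[ℂ] H) + (Ψ (S * T)).2 =
        ((Ψ S).1 * (Ψ T).1) • (1 : H →L[ℂ] H) +
          ((Ψ S).2 * (Ψ T).2 + (Ψ S).1 • (Ψ T).2 + (Ψ T).1 • (Ψ S).2) := by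
      rw [hΨφ, hφm, ← hΨφ S, ← hΨφ T]
      simp only [mul_add, add_mul, smul_mul_assoc, mul_smul_comm, one_mul, mul_one, smul_add]
      rw [mul_comm (Ψ S).1, mul_smul]
      abel
    have hc : IsCompactOperator
        ((Ψ S).2 * (Ψ T).2 + (Ψ S).1 • (Ψ T).2 + (Ψ T).1 • (Ψ S).2 : H →L[ℂ] H) :=
      IsCompactOperator.add (IsCompactOperator.add ((hΨc S).comp_clm (Ψ T).2)
        ((hΨc T).smul (Ψ S).1)) ((hΨc S).smul (Ψ T).1)
    have h2 := uniq hH (hΨc (S * T)) hc h1
    exact Prod.ext h2.1 h2.2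
  · intro S
    have h1 := (hC ((compacts X).mkQ S)).1
    have h4 : ‖(Ψ S).1‖ ≤ ‖e ((compacts X).mkQ S)‖ := norm_fst_le (e ((compacts X).mkQ S))
    have h5 : ‖(Ψ S).2‖ ≤ ‖e ((compacts X).mkQ S)‖ := norm_snd_le (e ((compacts X).mkQ S))
    have h7 : C * ‖(compacts X).mkQ S‖ ≤ |C| * ‖(compacts X).mkQ S‖ :=
      mul_le_mul_of_nonneg_right (le_abs_self C) (norm_nonneg ((compacts X).mkQ S))
    have h8 : unitizationNorm (Ψ S) = ‖(Ψ S).1‖ + ‖(Ψ S).2‖ := rfl
    have h9 : calkinNorm S = ‖(compacts X).mkQ S‖ := rfl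
    rw [h8, h9]
    linarith
  · intro S
    have h2 := (hC ((compacts X).mkQ S)).2
    have h6 : ‖e ((compacts X).mkQ S)‖ ≤ ‖(Ψ S).1‖ + ‖(Ψ S).2‖ := by
      have h61 : ‖e ((compacts X).mkQ S)‖ = max ‖(Ψ S).1‖ ‖(Ψ S).2‖ :=
        Prod.norm_def (e ((compacts X).mkQ S))
      rw [h61]
      exact max_le (by linarith [norm_nonneg (Ψ S).2]) (by linarith [norm_nonneg (Ψ S).1])
    have h8 : unitizationNorm (Ψ S) = ‖(Ψ S).1‖ + ‖(Ψ S).2‖ := rfl
    have h9 : calkinNorm S = ‖(compacts X).mkQ S‖ := rfl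
    rw [h8, h9]
    refine h2.trans ((mul_le_mul_of_nonneg_right (le_abs_self C) (norm_nonneg _)).trans ?_)
    exact mul_le_mul_of_nonneg_left h6 (abs_nonneg C)

end

/-- **Positive answer to Q1.** There is a complex Banach space `X` whose Calkin algebra is isomorphic as
a Banach algebra to the unitization of the algebra of compact operators on `ℓ₂`. -/
theorem result :
    ∃ (X : Type) (_ : NormedAddCommGroup X) (_ : NormedSpace ℂ X) (_ : CompleteSpace X),
      CalkinIsoUnitizedCompacts X (lp (fun _ : ℕ => ℂ) 2) := by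
  obtain ⟨X, i1, i2, i3, φ, hφc, hφr, hφk⟩ := Helper64.Cal.main
  exact ⟨X, i1, i2, i3, isomorphic_of_hom (fun c hc => Helper64.Cal.scalar_compact hc)
    φ.toLinearMap (fun S T => map_mul φ S T) hφc hφr hφk⟩

end Pool.Agent.Results.MP_d4c2ba_an.CalkinAlgebra
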